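import Mathlib
import Pool.Agent.H759R2.Kad.Props3
import Pool.Agent.H862R2.Kad.Embed

/-!
The weighted column bound (task 20 of the third Kadison project).
-/

open scoped ComplexOrder InnerProductSpace ComplexConjugate
open Finset

noncomputable section

namespace H759R2.Kad

universe u v

namespace A20

set_option linter.unusedSectionVars false

variable {B : Type u} [CStarAlgebra B]
variable {ι : Type} [Fintype ι] [DecidableEq ι]

theorem dgc_apply (d : ι → ℝ) (i j : ι) :
    dgc B d i j = if i = j then algebraMap ℂ B (d i : ℂ) else 0 := by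
  change Matrix.diagonal (fun c => algebraMap ℂ B (d c : ℂ)) i j = _
  rw [Matrix.diagonal_apply]

theorem dgc_mul (d d' : ι → ℝ) : dgc B d * dgc B d' = dgc B (fun j => d j * d' j) := by
  ext i j
  rw [CStarMatrix.mul_apply, dgc_apply, Finset.sum_eq_single i]
  · rw [dgc_apply, dgc_apply, if_pos rfl]
    by_cases h : i = j
    · rw [if_pos h, if_pos h, ← map_mul]
      push_cast
      rfl
    · rw [if_neg h, if_neg h, mul_zero]
  · intro b _ hb
    rw [dgc_apply, if_neg (Ne.symm hb), zero_mul]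
  · intro h
    exact absurd (mem_univ _) h

theorem sumapp {κ : Type} (s : Finset κ) (X : κ → CStarMatrix ι ι B) (i j : ι) :
    (∑ k ∈ s, X k) i j = ∑ k ∈ s, X k i j := by
  classical
  induction s using Finset.induction_on with
  | empty => simp
  | insert a s h ih => rw [sum_insert h, sum_insert h, CStarMatrix.add_apply, ih]

theorem dgc_add (d d' : ι → ℝ) : dgc B d + dgc B d' = dgc B (fun j => d j + d' j) := by
  ext i j
  rw [CStarMatrix.add_apply, dgc_apply, dgc_apply, dgc_apply]
  by_cases h : i = j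
  · rw [if_pos h, if_pos h, if_pos h, ← map_add]
    push_cast
    rfl
  · rw [if_neg h, if_neg h, if_neg h, add_zero]

theorem dgc_one : dgc B (fun _ : ι => (1 : ℝ)) = 1 := by
  ext i j
  rw [dgc_apply, CStarMatrix.one_apply]
  simp

theorem dgc_star (d : ι → ℝ) : star (dgc B d) = dgc B d := by
  ext i j
  rw [CStarMatrix.star_apply, dgc_apply, dgc_apply]
  by_cases h : i = j
  · subst h
    rw [if_pos rfl, ← algebraMap_star_comm]
    congr 1
    exact Complex.conj_ofReal _
  · rw [if_neg h, if_neg (Ne.symm h), star_zero]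

theorem dgc_const (t : ℝ) : dgc B (fun _ : ι => t) = (t : ℂ) • (1 : CStarMatrix ι ι B) := by
  ext i j
  rw [dgc_apply, CStarMatrix.smul_apply, CStarMatrix.one_apply]
  by_cases h : i = j
  · rw [if_pos h, if_pos h, Algebra.algebraMap_eq_smul_one]
  · rw [if_neg h, if_neg h, smul_zero]

variable [PartialOrder B] [StarOrderedRing B]

theorem dgc_nonneg (d : ι → ℝ) (hd : ∀ j, 0 ≤ d j) : 0 ≤ dgc B d := by
  have h : dgc B d = star (dgc B fun j => Real.sqrt (d j)) * dgc B fun j => Real.sqrt (d j) := by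
    rw [dgc_star, dgc_mul]
    congr 1
    funext j
    rw [Real.mul_self_sqrt (hd j)]
  rw [h]
  exact star_mul_self_nonneg _

theorem weights (M : Finset ι) (P : CStarMatrix ι ι B) (hP : 0 ≤ P) (lam : ι → ℝ) (ε : ℝ)
    (hlam : ∀ j, 0 ≤ lam j) (hε : 0 < ε)
    (h : ‖P - dgc B (fun j => if j ∈ M then lam j else 0)‖ ≤ ε) :
    ‖dgc B (fun j => if j ∈ M then (Real.sqrt (lam j + ε))⁻¹ else 0) * P *
      dgc B (fun j => if j ∈ M then (Real.sqrt (lam j + ε))⁻¹ else 0)‖ ≤ 1 := by
  set W := dgc B (fun j => if j ∈ M then (Real.sqrt (lam j + ε))⁻¹ else 0) with hW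
  set D := dgc B (fun j => if j ∈ M then lam j else 0) with hD
  have hWs : star W = W := dgc_star _
  have h0 : 0 ≤ W * P * W := by
    have := star_left_conjugate_nonneg hP W
    rwa [hWs] at this
  rw [CStarAlgebra.norm_le_one_iff_of_nonneg _ h0]
  have hsa : IsSelfAdjoint (P - D) := (IsSelfAdjoint.of_nonneg hP).sub (dgc_star _)
  have h1 : P - D ≤ dgc B (fun _ : ι => ε) := by
    refine hsa.le_algebraMap_norm_self.trans ?_
    rw [Algebra.algebraMap_eq_smul_one, ← Complex.coe_smul, ← dgc_const]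
    have e : dgc B (fun _ : ι => ε) = dgc B (fun _ : ι => ‖P - D‖) +
        dgc B (fun _ : ι => ε - ‖P - D‖) := by
      rw [dgc_add]
      congr 1
      funext j
      ring
    rw [e]
    exact le_add_of_nonneg_right (dgc_nonneg _ fun _ => by linarith)
  have h2 : P ≤ D + dgc B (fun _ : ι => ε) := by
    rw [← sub_le_iff_le_add'] 
    exact h1
  have h3 : W * P * W ≤ W * (D + dgc B (fun _ : ι => ε)) * W := by
    have := star_left_conjugate_le_conjugate h2 W
    rwa [hWs] at this
  refine h3.trans ?_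
  rw [hD, dgc_add, hW, dgc_mul, dgc_mul, ← sub_nonneg]
  have h4 : (1 : CStarMatrix ι ι B) - dgc B (fun j => (if j ∈ M then (Real.sqrt (lam j + ε))⁻¹ else 0) *
      ((if j ∈ M then lam j else 0) + ε) * (if j ∈ M then (Real.sqrt (lam j + ε))⁻¹ else 0)) =
      dgc B (fun j => if j ∈ M then 0 else 1) := by
    rw [sub_eq_iff_eq_add, dgc_add, ← dgc_one]
    congr 1
    funext j
    by_cases hj : j ∈ M
    · simp only [hj, if_true]
      have h5 : 0 < lam j + ε := by linarith [hlam j]
      have h6 : Real.sqrt (lam j + ε) * Real.sqrt (lam j + ε) = lam j + ε :=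
        Real.mul_self_sqrt h5.le
      have h7 : Real.sqrt (lam j + ε) ≠ 0 := (Real.sqrt_pos.2 h5).ne'
      field_simp
      rw [sq, h6]
      simp
    · simp [hj]
  rw [h4]
  exact dgc_nonneg _ fun j => by split_ifs <;> norm_num

end A20

open A20 Embed in
theorem prove3_wcol (h1 : T2_col.{u, v}) (h2 : T2_dix.{u, v}) (h3 : K_level.{u, v}) : K_wcol.{u, v} := by
  intro B _ _ _ K _ _ _ w τ hw hτ hdix c γ hc hγ hwc L hL ι _ _ M hM κ _ Z hZ lam ε hlam hε hn θ
  rcases M.eq_empty_or_nonempty with hM0 | hM0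
  · subst hM0
    have hz : ∀ k, Z k = 0 := by
      intro k
      ext i j
      exact hZ k i j (by simp)
    simp [hz]
  obtain ⟨j00, hj00⟩ := hM0
  let ι' := {x // x ∈ M}
  let j0 : ι' := ⟨j00, hj00⟩
  have : Nonempty ι' := ⟨j0⟩
  obtain ⟨hw', hτ', hd'⟩ := h2 B K w τ hw hτ hdix c hc hwc ι'
  have hlev : ∀ Y : CStarMatrix ι' ι' B, ‖amp w ι' Y‖ ≤ γ * ‖Y‖ :=
    h3 B K w L γ hγ hL ι' (by rw [Fintype.card_coe]; exact hM)
  -- the weights
  let s : ι → ℝ := fun j => (Real.sqrt (lam j + ε))⁻¹
  let r : ι → ℝ := fun j => Real.sqrt (lam j + ε)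
  have hrs : ∀ j, s j * r j = 1 := fun j => by
    have h5 : 0 < lam j + ε := by linarith [hlam j]
    exact inv_mul_cancel₀ (Real.sqrt_pos.2 h5).ne'
  let a : κ × ι → CStarMatrix ι' ι' B := fun q => CStarMatrix.ofMatrix fun i' j' =>
    if i' = j0 then (s j' : ℂ) • Z q.1 q.2 j' else 0
  have ha : ∀ q i' j', a q i' j' = if i' = j0 then (s j' : ℂ) • Z q.1 q.2 j' else 0 :=
    fun q i' j' => rfl
  let ζ : HH ι' K := WithLp.toLp 2 fun j' => (r j' : ℂ) • θ j'
  have hζ : ∀ j', ζ j' = (r j' : ℂ) • θ j' := fun j' => rfl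
  have hcol := (h1 (CStarMatrix ι' ι' B) (HH ι' K) (amp w ι') (ntr τ ι') hw' hτ' c γ hc hγ hd'
    hlev (κ × ι) a).1 ζ
  -- the left side
  have hleft : ∑ q, ‖amp w ι' (a q) ζ‖ ^ 2 = ∑ k, ‖amp w ι (Z k) θ‖ ^ 2 := by
    rw [Fintype.sum_prod_type]
    refine Finset.sum_congr rfl fun k _ => ?_
    rw [PiLp.norm_sq_eq_of_L2]
    refine Finset.sum_congr rfl fun i _ => ?_
    rw [PiLp.norm_sq_eq_of_L2, Finset.sum_eq_single j0]
    · rw [amp_apply, amp_apply]
      congr 2
      have e1 : ∑ j : ι, w (Z k i j) (θ j) = ∑ j ∈ M, w (Z k i j) (θ j) := by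
        symm
        apply Finset.sum_subset (Finset.subset_univ _)
        intro j _ hj
        rw [hZ k i j hj, map_zero]
        rfl
      rw [e1, ← Finset.sum_coe_sort M]
      refine Finset.sum_congr rfl fun j _ => ?_
      rw [ha, if_pos rfl, hζ, map_smul, map_smul, smul_apply, smul_smul]
      have : (r (j : ι) : ℂ) * (s (j : ι) : ℂ) = 1 := by
        rw [mul_comm, ← Complex.ofReal_mul, hrs, Complex.ofReal_one]
      rw [this, one_smul]
    · intro b _ hb
      rw [amp_apply]
      have : ∑ j, w (a (k, i) b j) (ζ j) = 0 := by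
        refine Finset.sum_eq_zero fun j _ => ?_
        rw [ha, if_neg hb, map_zero]
        rfl
      rw [this]
      simp
    · intro h
      exact absurd (mem_univ _) h
  -- the norm of `ζ`
  have hζn : ‖ζ‖ ^ 2 = ∑ j ∈ M, (lam j + ε) * ‖θ j‖ ^ 2 := by
    rw [PiLp.norm_sq_eq_of_L2, ← Finset.sum_coe_sort M]
    refine Finset.sum_congr rfl fun j _ => ?_
    rw [hζ, norm_smul, mul_pow, Complex.norm_real, Real.norm_eq_abs, sq_abs]
    have h5 : 0 < lam (j : ι) + ε := by linarith [hlam j]
    rw [Real.sq_sqrt h5.le]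
  -- the Gram matrix
  let e : ι' ↪ ι := Function.Embedding.subtype (fun x => x ∈ M)
  have he : ∀ j : ι', e j = j := fun j => rfl
  have hrange : ∀ i : ι, i ∉ Set.range e → i ∉ M := by
    intro i hi hiM
    exact hi ⟨⟨i, hiM⟩, rfl⟩
  set P : CStarMatrix ι ι B := ∑ k, star (Z k) * Z k with hP
  have hPapp : ∀ i j, P i j = ∑ k, ∑ l, star (Z k l i) * Z k l j := by
    intro i j
    rw [hP, sumapp]
    refine Finset.sum_congr rfl fun k _ => ?_
    rw [CStarMatrix.mul_apply]
    refine Finset.sum_congr rfl fun l _ => ?_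
    rw [CStarMatrix.star_apply]
  set W : CStarMatrix ι ι B := dgc B (fun j => if j ∈ M then (Real.sqrt (lam j + ε))⁻¹ else 0)
    with hWd
  have hWPW : ∀ i j, (W * P * W) i j = (((if i ∈ M then s i else 0) *
      (if j ∈ M then s j else 0) : ℝ) : ℂ) • P i j := by
    intro i j
    rw [CStarMatrix.mul_apply, Finset.sum_eq_single j]
    · rw [CStarMatrix.mul_apply, Finset.sum_eq_single i]
      · rw [hWd, dgc_apply, dgc_apply, if_pos rfl, if_pos rfl, Algebra.algebraMap_eq_smul_one,
          Algebra.algebraMap_eq_smul_one, smul_mul_assoc, one_mul, mul_smul_comm, mul_one,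
          smul_smul]
        congr 1
        push_cast
        rw [mul_comm]
      · intro b _ hb
        rw [hWd, dgc_apply, if_neg (Ne.symm hb), zero_mul]
      · intro h
        exact absurd (mem_univ _) h
    · intro b _ hb
      rw [hWd, dgc_apply, if_neg hb, mul_zero]
    · intro h
      exact absurd (mem_univ _) h
  have hex : exH e (∑ q, star (a q) * a q) = W * P * W := by
    rw [exH_apply]
    refine exM_ext e _ _ (fun i j => ?_) (fun i j hi => ?_) (fun i j hj => ?_)
    · rw [hWPW, he, he, hPapp, sumapp, Fintype.sum_prod_type, Finset.smul_sum]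
      simp only [i.2, j.2, if_true]
      refine Finset.sum_congr rfl fun k _ => ?_
      rw [Finset.smul_sum]
      refine Finset.sum_congr rfl fun l _ => ?_
      rw [CStarMatrix.mul_apply, Finset.sum_eq_single j0]
      · rw [CStarMatrix.star_apply, ha, ha, if_pos rfl, if_pos rfl, star_smul, smul_mul_smul_comm]
        congr 1
        push_cast
        congr 1
        exact (Complex.conj_ofReal _).symm
      · intro b _ hb
        rw [ha (k, l) b j, if_neg hb, mul_zero]
      · intro h
        exact absurd (mem_univ _) h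
    · rw [hWPW, if_neg (hrange i hi), zero_mul]
      simp
    · rw [hWPW, if_neg (hrange j hj), mul_zero]
      simp
  have hinj : Function.Injective (exH e : CStarMatrix ι' ι' B →⋆ₙₐ[ℂ] CStarMatrix ι ι B) := by
    intro X Y hXY
    ext i j
    have := congrArg (fun T : CStarMatrix ι ι B => T (e i) (e j)) hXY
    simpa [exH_apply, exM_apply] using this
  have hnorm : ‖∑ q, star (a q) * a q‖ ≤ 1 := by
    rw [← NonUnitalStarAlgHom.norm_map (exH e) hinj, hex]
    refine weights M P ?_ lam ε hlam hε hn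
    exact Finset.sum_nonneg fun k _ => star_mul_self_nonneg _
  rw [hleft, hζn] at hcol
  refine hcol.trans ?_
  have h0 : 0 ≤ ∑ j ∈ M, (lam j + ε) * ‖θ j‖ ^ 2 :=
    Finset.sum_nonneg fun j _ => mul_nonneg (by linarith [hlam j]) (by positivity)
  refine mul_le_mul_of_nonneg_right ?_ h0
  have h6 : 0 ≤ 6 * c ^ 2 * γ ^ 2 := by positivity
  nlinarith

end H759R2.Kad
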